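import Mathlib

set_option autoImplicit false
open Filter Topology

namespace Pool.Agent.Results.MP_12ef09_al.Torsion

/-- the binary rooted tree: the children of v are a :: v, the root is [] -/
def T : SimpleGraph (List Bool) := SimpleGraph.fromRel fun v w => ∃ a, w = a :: v

/-- level k -/
abbrev L (k : ℕ) : Type := {v : List Bool // v.length = k}

/-- the restrictions of the elements of H to level k -/
def res (H : Subgroup (T ≃g T)) (k : ℕ) : Set (L k → List Bool) :=
  {f | ∃ g ∈ H, ∀ v, f v = g v.1}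

/-- proportion of those restrictions that fix a vertex -/
noncomputable def p (H : Subgroup (T ≃g T)) (k : ℕ) : ℝ :=
  ({f ∈ res H k | ∃ v, f v = v.1}.ncard : ℝ) / (res H k).ncard

def act (ε : ℕ → Bool) : List Bool → List Bool
  | [] => []
  | a :: v => xor a (ε v.length) :: act ε v

@[simp] lemma act_length (ε : ℕ → Bool) : ∀ v, (act ε v).length = v.length
  | [] => rfl
  | _ :: v => by simp [act, act_length ε v]

lemma act_act (ε δ : ℕ → Bool) : ∀ v, act ε (act δ v) = act (fun i => xor (δ i) (ε i)) v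
  | [] => rfl
  | _ :: v => by simp [act, act_act ε δ v]

lemma act_zero : ∀ v, act (fun _ => false) v = v
  | [] => rfl
  | _ :: v => by simp [act, act_zero v]

lemma act_self (ε : ℕ → Bool) (v : List Bool) : act ε (act ε v) = v := by
  simp [act_act, act_zero]

lemma act_adj (ε : ℕ → Bool) {v w : List Bool} (h : T.Adj v w) : T.Adj (act ε v) (act ε w) := by
  simp only [T, SimpleGraph.fromRel_adj] at h ⊢
  refine ⟨fun e => h.1 (by rw [← act_self ε v, e, act_self]), ?_⟩
  rcases h.2 with ⟨a, rfl⟩ | ⟨a, rfl⟩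
  exacts [.inl ⟨_, rfl⟩, .inr ⟨_, rfl⟩]

def aut (ε : ℕ → Bool) : T ≃g T where
  toFun := act ε
  invFun := act ε
  left_inv := act_self ε
  right_inv := act_self ε
  map_rel_iff' := fun {v w} => ⟨fun h => by
    have := act_adj ε h
    simpa [act_self] using this, act_adj ε⟩

lemma aut_sq (ε : ℕ → Bool) : aut ε * aut ε = 1 := RelIso.ext (act_self ε)

def G : Subgroup (T ≃g T) where
  carrier := Set.range aut
  one_mem' := ⟨fun _ => false, RelIso.ext act_zero⟩
  mul_mem' := by
    rintro _ _ ⟨ε, rfl⟩ ⟨δ, rfl⟩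
    exact ⟨_, RelIso.ext fun v => (act_act ε δ v).symm⟩
  inv_mem' := by
    rintro _ ⟨ε, rfl⟩
    exact ⟨ε, eq_inv_of_mul_eq_one_left (aut_sq ε)⟩

lemma act_eq_iff (ε δ : ℕ → Bool) : ∀ v, act ε v = act δ v ↔ ∀ i < v.length, ε i = δ i
  | [] => by simp [act]
  | a :: v => by
    simp only [act, List.cons.injEq, act_eq_iff ε δ v, List.length_cons, Nat.forall_lt_succ_right]
    cases a <;> simp [and_comm]

instance (k : ℕ) : Finite (L k) := (List.finite_length_eq Bool k).to_subtype

lemma res_fin {H : Subgroup (T ≃g T)} (hH : H ≤ G) (k : ℕ) : (res H k).Finite := by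
  refine (Set.Finite.pi' fun _ : L k => List.finite_length_eq Bool k).subset ?_
  rintro f ⟨g, hg, hf⟩ v
  obtain ⟨ε, rfl⟩ := hH hg
  rw [Set.mem_ofPred_eq, hf]
  exact (act_length ε _).trans v.2

lemma pG (k : ℕ) (hk : 0 < k) : p G k ≤ 1 / k := by
  have h1 : {f ∈ res G k | ∃ v, f v = v.1}.ncard ≤ 1 := by
    rw [← Set.ncard_singleton (Subtype.val : L k → List Bool)]
    refine Set.ncard_le_ncard ?_
    rintro f ⟨⟨_, ⟨ε, rfl⟩, hf⟩, v, hv⟩
    funext w
    rw [hf, ← act_zero v.1] at hv
    rw [hf, ← act_zero w.1]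
    refine (congrArg (act ε) (act_zero _)).trans ((act_eq_iff _ _ _).2 ?_)
    rw [w.2, ← v.2]
    exact (act_eq_iff _ _ _).1 ((congrArg (act ε) (act_zero _)).symm.trans hv)
  have h2 : k ≤ (res G k).ncard := by
    have := Set.ncard_le_ncard_of_injOn (s := Set.Iio k) (t := res G k)
      (fun i v => act (fun j => decide (j = i)) v.1) (fun i _ => ⟨aut _, ⟨_, rfl⟩, fun _ => rfl⟩)
      (fun i hi j _ h => by
        have := (act_eq_iff _ _ _).1 (congrFun h ⟨List.replicate k false, by simp⟩) i
          (by simpa using hi)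
        simpa using this) (res_fin le_rfl k)
    simpa using this
  unfold p
  gcongr
  exact_mod_cast h1

theorem result : ∃ G : Subgroup (T ≃g T), (∀ g ∈ G, g [] = []) ∧
    (∀ g : T ≃g T, (∀ k, ∃ h ∈ G, ∀ v : L k, g v.1 = h v.1) → g ∈ G) ∧
    Tendsto (p G) atTop (𝓝 0) ∧
    ∀ (n : ℕ) (g : Fin n → G), ∃ c > 0, ∀ k,
      c ≤ p (Subgroup.closure (Set.range fun i => (g i : T ≃g T))) k := by
  refine ⟨G, ?_, fun g hg => ?_, ?_, fun n g => ?_⟩
  · rintro _ ⟨ε, rfl⟩; rfl
  · choose h hh hg using hg
    choose ε hε using hh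
    have hg' : ∀ v, g v = act (ε v.length) v := fun v => by
      rw [hg _ ⟨v, rfl⟩, ← hε]; rfl
    have hc : ∀ a v, act (ε (v.length + 1)) v = g v := fun a v => by
      have h1 : T.Adj (g v) (g (a :: v)) := g.map_adj_iff.2 (by simp [T])
      rcases ((SimpleGraph.fromRel_adj _ _ _).1 h1).2 with ⟨b, hb⟩ | ⟨b, hb⟩
      · rw [hg' (a :: v)] at hb
        exact (List.cons.inj hb).2
      · have := congrArg List.length hb
        rw [List.length_cons, hg', hg', act_length, act_length, List.length_cons] at this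
        omega
    refine ⟨fun i => ε (i + 1) i, RelIso.ext fun v => ?_⟩
    show act _ v = g v
    induction v with
    | nil => rw [hg']; rfl
    | cons a v ih => rw [hg', act, act, ih, List.length_cons, hc a v]
  · refine squeeze_zero' (.of_forall fun k => by unfold p; positivity)
      ((eventually_gt_atTop 0).mono pG) tendsto_one_div_atTop_nhds_zero_nat
  · set H := Subgroup.closure (Set.range fun i => (g i : T ≃g T)) with hH
    have hle : H ≤ G := (Subgroup.closure_le _).2 (by rintro _ ⟨i, rfl⟩; exact (g i).2)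
    have hfin : Finite H := by
      let : CommGroup H := { (inferInstance : Group H) with
        mul_comm := fun a b => by
          obtain ⟨ε, hε⟩ := hle a.2
          obtain ⟨δ, hδ⟩ := hle b.2
          refine Subtype.ext ?_
          show (a : T ≃g T) * b = b * a
          rw [← hε, ← hδ]
          refine RelIso.ext fun v => ?_
          show act ε (act δ v) = act δ (act ε v)
          simp only [act_act, Bool.xor_comm] }
      have : Group.FG H := Group.closure_finite_fg _
      refine CommGroup.finite_of_fg_isMulTorsion H fun a => isOfFinOrder_iff_pow_eq_one.2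
        ⟨2, two_pos, Subtype.ext ?_⟩
      obtain ⟨ε, hε⟩ := hle a.2
      show (a : T ≃g T) ^ 2 = 1
      rw [← hε, pow_two, aut_sq]
    have hN : 0 < (H : Set (T ≃g T)).ncard := (Set.ncard_pos (Set.toFinite _)).2 ⟨1, H.one_mem⟩
    refine ⟨1 / (H : Set (T ≃g T)).ncard, by positivity, fun k => ?_⟩
    have hid : (Subtype.val : L k → List Bool) ∈ res H k := ⟨1, H.one_mem, fun _ => rfl⟩
    have h1 : 0 < {f ∈ res H k | ∃ v, f v = v.1}.ncard :=
      (Set.ncard_pos ((res_fin hle k).subset fun _ h => h.1)).2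
        ⟨_, hid, ⟨List.replicate k false, by simp⟩, rfl⟩
    have h2 : 0 < (res H k).ncard := (Set.ncard_pos (res_fin hle k)).2 ⟨_, hid⟩
    have h3 : (res H k).ncard ≤ (H : Set (T ≃g T)).ncard := by
      refine le_trans (Set.ncard_le_ncard ?_ ((Set.toFinite _).image _))
        (Set.ncard_image_le (f := fun g : T ≃g T => fun v : L k => g v.1))
      rintro f ⟨g, hg, hf⟩
      exact ⟨g, hg, (funext hf).symm⟩
    unfold p
    gcongr
    exact_mod_cast h1

end Pool.Agent.Results.MP_12ef09_al.Torsion
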